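import Pool.Agent.W623.SecC.Defs

/-!
# Adjoining square roots of units keeps the value group (part B3 of helper623's project SC)
-/

namespace Pool.Agent.W933.SecC

open Pool.Agent.W623.SecC

universe u w

variable {k : Type u} {kb : Type w} [Field k] [Field kb] [Algebra k kb]

theorem isU_iff (V : ValuationSubring kb) (x : kb) : IsU V x ↔ V.valuation x = 1 := by
  unfold IsU
  constructor
  · rintro ⟨h0, h1, h2⟩
    have h1' := (V.valuation_le_one_iff x).2 h1
    have h2' := (V.valuation_le_one_iff x⁻¹).2 h2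
    rw [map_inv₀] at h2'
    have h3 : V.valuation x ≠ 0 := (map_ne_zero _).2 h0
    apply le_antisymm h1'
    exact (inv_le_one₀ (zero_lt_iff.2 h3)).1 h2'
  · intro h
    have h0 : x ≠ 0 := by
      rintro rfl
      simp at h
    refine ⟨h0, (V.valuation_le_one_iff x).1 h.le, (V.valuation_le_one_iff x⁻¹).1 ?_⟩
    rw [map_inv₀, h, inv_one]

/-- every value on `T` is a power of `π` -/
def Tame (V : ValuationSubring kb) (π : kb) (T : IntermediateField k kb) : Prop :=
  ∀ c ∈ T, c ≠ 0 → ∃ j : ℤ, V.valuation c = V.valuation π ^ j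

theorem tame_iff (V : ValuationSubring kb) {π : kb} (hπ : π ≠ 0) (T : IntermediateField k kb) :
    Tame V π T ↔ ∀ c ∈ T, c ≠ 0 → ∃ j : ℤ, IsU V (c / π ^ j) := by
  unfold Tame
  have hv : V.valuation π ≠ 0 := (map_ne_zero _).2 hπ
  have : ∀ (c : kb) (j : ℤ), IsU V (c / π ^ j) ↔ V.valuation c = V.valuation π ^ j := by
    intro c j
    rw [isU_iff, map_div₀, map_zpow₀, div_eq_one_iff_eq (zpow_ne_zero _ hv)]
  simp only [this]

theorem sqrt_unit (V : ValuationSubring kb) {η ρ : kb} (h : V.valuation η = 1) (hρ : ρ ^ 2 = η) :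
    V.valuation ρ = 1 := by
  have h1 : V.valuation ρ ^ 2 = 1 := by rw [← map_pow, hρ, h]
  exact (pow_eq_one_iff.1 h1).resolve_right (by norm_num)

/-- the value of `a + b ρ` -/
theorem val_add (V : ValuationSubring kb) (h2 : V.valuation (2 : kb) = 1) (π : kb) (T : IntermediateField k kb)
    (hT : Tame V π T) {η ρ : kb} (hηT : η ∈ T) (hη : V.valuation η = 1) (hρ : ρ ^ 2 = η)
    {a b : kb} (ha : a ∈ T) (hb : b ∈ T) (hne : a + b * ρ ≠ 0) :
    ∃ j : ℤ, V.valuation (a + b * ρ) = V.valuation π ^ j := by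
  have hvρ := sqrt_unit V hη hρ
  have hbρ : V.valuation (b * ρ) = V.valuation b := by rw [map_mul, hvρ, mul_one]
  by_cases hb0 : b = 0
  · subst hb0
    simp only [zero_mul, add_zero] at hne ⊢
    exact hT a ha hne
  by_cases ha0 : a = 0
  · subst ha0
    simp only [zero_add] at hne ⊢
    rw [hbρ]
    exact hT b hb hb0
  by_cases hab : V.valuation a = V.valuation (b * ρ)
  · by_cases hx : V.valuation (a + b * ρ) = V.valuation a
    · rw [hx]; exact hT a ha ha0
    · have hle : V.valuation (a + b * ρ) ≤ V.valuation a := by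
        refine (V.valuation.map_add _ _).trans ?_
        rw [← hab, max_self]
      have hlt : V.valuation (a + b * ρ) < V.valuation a := lt_of_le_of_ne hle hx
      have h2a : V.valuation (2 * a) = V.valuation a := by rw [map_mul, h2, one_mul]
      have hsub : V.valuation (a - b * ρ) = V.valuation a := by
        have e : a - b * ρ = 2 * a - (a + b * ρ) := by ring
        rw [e, Valuation.map_sub_eq_of_lt_left, h2a]
        rw [h2a]; exact hlt
      have hsub0 : a - b * ρ ≠ 0 := by
        intro h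
        rw [h, map_zero] at hsub
        exact ha0 ((map_eq_zero V.valuation).1 hsub.symm)
      have hprod : (a + b * ρ) * (a - b * ρ) = a ^ 2 - b ^ 2 * η := by
        rw [← hρ]; ring
      have hmem : a ^ 2 - b ^ 2 * η ∈ T := sub_mem (pow_mem ha 2) (mul_mem (pow_mem hb 2) hηT)
      have hne2 : a ^ 2 - b ^ 2 * η ≠ 0 := by
        rw [← hprod]; exact mul_ne_zero hne hsub0
      obtain ⟨l, hl⟩ := hT _ hmem hne2
      obtain ⟨i, hi⟩ := hT a ha ha0
      by_cases hπ : V.valuation π = 0
      · -- then the values are 1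
        rw [← hprod, map_mul, hsub] at hl
        have hva : V.valuation a ≠ 0 := (map_ne_zero _).2 ha0
        have hvx : V.valuation (a + b * ρ) ≠ 0 := (map_ne_zero _).2 hne
        have hi0 : i = 0 := by
          by_contra hc
          rw [hπ, zero_zpow _ hc] at hi
          exact hva hi
        have hl0 : l = 0 := by
          by_contra hc
          rw [hπ, zero_zpow _ hc] at hl
          exact mul_ne_zero hvx hva hl
        subst hi0; subst hl0
        refine ⟨0, ?_⟩
        rw [zpow_zero] at hl hi ⊢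
        rwa [hi, mul_one] at hl
      · refine ⟨l - i, ?_⟩
        rw [zpow_sub₀ hπ, ← hl, ← hi, ← hprod, map_mul, hsub]
        rw [mul_div_cancel_right₀]
        exact (map_ne_zero _).2 ha0
  · rw [Valuation.map_add_of_distinct_val _ hab]
    rcases max_cases (V.valuation a) (V.valuation (b * ρ)) with h | h
    · rw [h.1]; exact hT a ha ha0
    · rw [h.1, hbρ]; exact hT b hb hb0

/-- adjoining one square root -/
theorem step (V : ValuationSubring kb) (h2 : V.valuation (2 : kb) = 1) (π : kb)
    (T : IntermediateField k kb)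
    (hT : Tame V π T) {η ρ : kb} (hηT : η ∈ T) (hη : V.valuation η = 1) (hρ : ρ ^ 2 = η) :
    ∃ T' : IntermediateField k kb, T ≤ T' ∧ ρ ∈ T' ∧ Tame V π T' := by
  by_cases hρT : ρ ∈ T
  · exact ⟨T, le_rfl, hρT, hT⟩
  refine ⟨{ carrier := {x | ∃ a ∈ T, ∃ b ∈ T, x = a + b * ρ}
            mul_mem' := ?_
            one_mem' := ⟨1, one_mem T, 0, zero_mem T, by ring⟩
            add_mem' := ?_
            zero_mem' := ⟨0, zero_mem T, 0, zero_mem T, by ring⟩
            algebraMap_mem' := fun r => ⟨_, T.algebraMap_mem r, 0, zero_mem T, by ring⟩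
            inv_mem' := ?_ }, ?_, ?_, ?_⟩
  · rintro x y ⟨a, ha, b, hb, rfl⟩ ⟨c, hc, d, hd, rfl⟩
    refine ⟨a * c + b * d * η, add_mem (mul_mem ha hc) (mul_mem (mul_mem hb hd) hηT),
      a * d + b * c, add_mem (mul_mem ha hd) (mul_mem hb hc), ?_⟩
    rw [← hρ]; ring
  · rintro x y ⟨a, ha, b, hb, rfl⟩ ⟨c, hc, d, hd, rfl⟩
    exact ⟨a + c, add_mem ha hc, b + d, add_mem hb hd, by ring⟩
  · rintro x ⟨a, ha, b, hb, rfl⟩
    by_cases hN : a ^ 2 - b ^ 2 * η = 0
    · by_cases hb0 : b = 0
      · subst hb0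
        exact ⟨a⁻¹, inv_mem ha, 0, zero_mem T, by simp⟩
      · exfalso
        apply hρT
        have h1 : (a / b) ^ 2 = ρ ^ 2 := by
          rw [hρ, div_pow, div_eq_iff (pow_ne_zero 2 hb0)]
          linear_combination hN
        rcases sq_eq_sq_iff_eq_or_eq_neg.1 h1 with h | h
        · rw [← h]; exact div_mem ha hb
        · have : ρ = -(a / b) := by rw [h, neg_neg]
          rw [this]; exact neg_mem (div_mem ha hb)
    · have hmem : a ^ 2 - b ^ 2 * η ∈ T := sub_mem (pow_mem ha 2) (mul_mem (pow_mem hb 2) hηT)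
      refine ⟨a / (a ^ 2 - b ^ 2 * η), div_mem ha hmem, -b / (a ^ 2 - b ^ 2 * η),
        div_mem (neg_mem hb) hmem, ?_⟩
      have hx0 : a + b * ρ ≠ 0 := by
        intro h
        apply hN
        rw [← hρ]
        have : a ^ 2 - b ^ 2 * ρ ^ 2 = (a + b * ρ) * (a - b * ρ) := by ring
        rw [this, h, zero_mul]
      apply inv_eq_of_mul_eq_one_right
      field_simp
      rw [← hρ]; ring
  · intro x hx
    exact ⟨x, hx, 0, zero_mem T, by ring⟩
  · exact ⟨0, zero_mem T, 1, one_mem T, by ring⟩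
  · rintro c ⟨a, ha, b, hb, rfl⟩ hne
    exact val_add V h2 π T hT hηT hη hρ ha hb hne

/-- closed under square roots of units -/
def Clo (V : ValuationSubring kb) (T : IntermediateField k kb) : Prop :=
  ∀ η ∈ T, IsU V η → ∀ ρ : kb, ρ ^ 2 = η → ρ ∈ T

theorem exists_max (V : ValuationSubring kb) (h2 : V.valuation (2 : kb) = 1) (π : kb)
    (L : IntermediateField k kb) (hL : Tame V π L) :
    ∃ M : IntermediateField k kb, L ≤ M ∧ Tame V π M ∧ Clo V M := by
  obtain ⟨M, hLM, hM⟩ := zorn_le_nonempty₀ {T : IntermediateField k kb | Tame V π T} (by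
    intro c hc hchain y hy
    refine ⟨sSup c, ?_, fun z hz => le_sSup hz⟩
    intro x hx hx0
    have hdir : DirectedOn (· ≤ ·) c := hchain.directedOn
    have : Nonempty c := ⟨⟨y, hy⟩⟩
    have hmem : x ∈ sSup c ↔ ∃ T ∈ c, x ∈ T := by
      rw [← SetLike.mem_coe, sSup_eq_iSup', IntermediateField.coe_iSup_of_directed hdir.directed_val]
      simp
    obtain ⟨T, hT, hxT⟩ := hmem.1 hx
    exact hc hT x hxT hx0) L hL
  refine ⟨M, hLM, hM.prop, ?_⟩
  intro η hη hU ρ hρ
  obtain ⟨T', hle, hρT', hT'⟩ := step V h2 π M hM.prop hη ((isU_iff V η).1 hU) hρ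
  exact hM.le_of_ge hT' hle hρT'

/-- the closure under square roots of units -/
def cl (V : ValuationSubring kb) (L : IntermediateField k kb) : IntermediateField k kb :=
  sInf {T | L ≤ T ∧ Clo V T}

theorem mem_cl (V : ValuationSubring kb) (L : IntermediateField k kb) (x : kb) :
    x ∈ cl V L ↔ ∀ T : IntermediateField k kb, L ≤ T → Clo V T → x ∈ T := by
  unfold cl
  rw [← SetLike.mem_coe, IntermediateField.coe_sInf]
  simp

theorem cl_map (V : ValuationSubring kb) (L : IntermediateField k kb) (φ : kb ≃ₐ[k] kb)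
    (hV : ∀ x, φ x ∈ V ↔ x ∈ V) (hL : ∀ x, φ x ∈ L ↔ x ∈ L) (x : kb) (hx : x ∈ cl V L) :
    φ x ∈ cl V L := by
  rw [mem_cl] at hx ⊢
  intro T hLT hT
  have := hx (T.comap φ.toAlgHom) ?_ ?_
  · exact this
  · intro y hy
    exact hLT ((hL y).2 hy)
  · intro η hη hU ρ hρ
    have h1 : φ η ∈ T := hη
    have h2 : IsU V (φ η) := by
      refine ⟨by simpa using hU.1, (hV _).2 hU.2.1, ?_⟩
      rw [← map_inv₀]
      exact (hV _).2 hU.2.2
    have h3 := hT (φ η) h1 h2 (φ ρ) (by rw [← map_pow, hρ])
    exact h3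

theorem partB3 : PartB3.{u, w} := by
  intro k kb _ _ _ _ V h2 ϖ hϖ hϖV L hL φ hφV hφL
  have hπ : algebraMap k kb ϖ ≠ 0 := by simpa using hϖ
  have h2v : V.valuation (2 : kb) = 1 := by
    rw [← isU_iff]
    refine ⟨?_, ?_, h2⟩
    · have : CharZero kb := charZero_of_injective_algebraMap (algebraMap k kb).injective
      exact two_ne_zero
    · have : (2 : kb) = 1 + 1 := by norm_num
      rw [this]; exact add_mem (one_mem V) (one_mem V)
  have hLt : Tame V (algebraMap k kb ϖ) L := (tame_iff V hπ L).2 hL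
  obtain ⟨M, hLM, hMt, hMc⟩ := exists_max V h2v _ L hLt
  refine ⟨cl V L, ?_, ?_, ?_, ?_⟩
  · intro x hx
    rw [mem_cl]
    intro T hT _
    exact hT hx
  · intro x
    constructor
    · intro hx
      have h := cl_map V L φ.symm (fun y => by
        have := hφV (φ.symm y)
        rw [AlgEquiv.apply_symm_apply] at this
        exact this.symm) (fun y => by
        have := hφL (φ.symm y)
        rw [AlgEquiv.apply_symm_apply] at this
        exact this.symm) (φ x) hx
      rwa [AlgEquiv.symm_apply_apply] at h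
    · exact cl_map V L φ hφV hφL x
  · intro η hη hU ρ hρ
    rw [mem_cl] at hη ⊢
    intro T hLT hT
    exact hT η (hη T hLT hT) hU ρ hρ
  · have : cl V L ≤ M := by
      intro x hx
      rw [mem_cl] at hx
      exact hx M hLM hMc
    have ht : Tame V (algebraMap k kb ϖ) (cl V L) := fun c hc hc0 => hMt c (this hc) hc0
    exact (tame_iff V hπ _).1 ht

end Pool.Agent.W933.SecC

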